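import Mathlib

/-!
# Vectors with finite orbits under the kernels of an independent family of normal subgroups
-/

set_option autoImplicit false

namespace Pool.Agent.L5helper68.TF

open Module

universe u v w x

section group

variable {Γ : Type u} [Group Γ] {C : Type v} [Group C] {ι : Type w}

/-- The elements of the kernel of `χ` which belong to `N i` for all `i ∈ F`. -/
def Ker (χ : Γ →* C) (N : ι → Subgroup Γ) (F : Finset ι) : Set Γ :=
  {g | χ g = 1 ∧ ∀ i ∈ F, g ∈ N i}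

/-- The normal subgroups `N i` are independent on the kernel of `χ`, up to subgroups of finite
index: for every finite set `F` of indices there is a subgroup `Δ` of finite index such that for all
`g i ∈ Δ` with `χ (g i) = 1` there is one `h` with `χ h = 1` which has the same image as `g i`
modulo `N i` for all `i ∈ F`. -/
def Independent (χ : Γ →* C) (N : ι → Subgroup Γ) : Prop :=
  (∀ i, (N i).Normal) ∧ ∀ F : Finset ι, ∃ Δ : Subgroup Γ, Δ.FiniteIndex ∧
    ∀ g : ι → Γ, (∀ i, g i ∈ Δ ∧ χ (g i) = 1) → ∃ h, χ h = 1 ∧ ∀ i ∈ F, (g i)⁻¹ * h ∈ N i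

variable {χ : Γ →* C} {N : ι → Subgroup Γ}

theorem Ker.one (F : Finset ι) : (1 : Γ) ∈ Ker χ N F := ⟨map_one χ, fun i _ => (N i).one_mem⟩

theorem Ker.mul {F : Finset ι} {g h : Γ} (hg : g ∈ Ker χ N F) (hh : h ∈ Ker χ N F) :
    g * h ∈ Ker χ N F :=
  ⟨by rw [map_mul, hg.1, hh.1, one_mul], fun i hi => (N i).mul_mem (hg.2 i hi) (hh.2 i hi)⟩

theorem Ker.inv {F : Finset ι} {g : Γ} (hg : g ∈ Ker χ N F) : g⁻¹ ∈ Ker χ N F :=
  ⟨by rw [map_inv, hg.1, inv_one], fun i hi => (N i).inv_mem (hg.2 i hi)⟩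

theorem Ker.conj (hN : ∀ i, (N i).Normal) {F : Finset ι} {g : Γ} (hg : g ∈ Ker χ N F) (γ : Γ) :
    γ⁻¹ * g * γ ∈ Ker χ N F :=
  ⟨by rw [map_mul, map_mul, hg.1, mul_one, ← map_mul, inv_mul_cancel, map_one], fun i hi => by
    have h1 := (hN i).conj_mem g (hg.2 i hi) γ⁻¹
    rwa [inv_inv] at h1⟩

theorem Ker.mono {F F' : Finset ι} (h : F ⊆ F') : Ker χ N F' ⊆ Ker χ N F :=
  fun _ hg => ⟨hg.1, fun i hi => hg.2 i (h hi)⟩

/-- decomposition of the elements of the kernel of an intersection -/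
theorem Independent.split (h : Independent χ N) (F F' : Finset ι) [DecidableEq ι] :
    ∃ Δ : Subgroup Γ, Δ.FiniteIndex ∧ ∀ g ∈ Δ, g ∈ Ker χ N (F ∩ F') →
      ∃ a ∈ Ker χ N F', ∃ b ∈ Ker χ N F, g = a * b := by
  classical
  obtain ⟨Δ, hΔ, h1⟩ := h.2 (F ∪ F')
  refine ⟨Δ, hΔ, fun g hg hgK => ?_⟩
  obtain ⟨a, ha, h2⟩ := h1 (fun i => if i ∈ F' then 1 else g) fun i => by
    by_cases hi : i ∈ F'
    · rw [if_pos hi]
      exact ⟨Δ.one_mem, map_one χ⟩
    · rw [if_neg hi]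
      exact ⟨hg, hgK.1⟩
  have ha' : a ∈ Ker χ N F' := by
    refine ⟨ha, fun i hi => ?_⟩
    have h3 := h2 i (Finset.mem_union_right _ hi)
    rwa [if_pos hi, inv_one, one_mul] at h3
  refine ⟨a, ha', a⁻¹ * g, ⟨by rw [map_mul, map_inv, ha, hgK.1, inv_one, one_mul], fun i hi => ?_⟩,
    by rw [mul_inv_cancel_left]⟩
  by_cases hi' : i ∈ F'
  · exact (N i).mul_mem ((N i).inv_mem (ha'.2 i hi')) (hgK.2 i (Finset.mem_inter.2 ⟨hi, hi'⟩))
  · have h3 := h2 i (Finset.mem_union_left _ hi)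
    rw [if_neg hi'] at h3
    have h4 := (N i).inv_mem h3
    rwa [mul_inv_rev, inv_inv] at h4

end group

section rep

variable {Γ : Type u} [Group Γ] {C : Type v} [Group C] {ι : Type w} {χ : Γ →* C}
  {N : ι → Subgroup Γ} {K : Type x} [Field K] {M : Type*} [AddCommGroup M] [Module K M]

variable (χ N) in
/-- The vectors with finite orbits under the kernel of `F`. -/
def NF (ρ : Γ →* Module.End K M) (F : Finset ι) : Submodule K M where
  carrier := {x | ((fun g => ρ g x) '' Ker χ N F).Finite}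
  add_mem' := by
    intro x y hx hy
    refine (hx.image2 (fun a b => a + b) hy).subset ?_
    rintro _ ⟨g, hg, rfl⟩
    exact ⟨_, ⟨g, hg, rfl⟩, _, ⟨g, hg, rfl⟩, (map_add (ρ g) x y).symm⟩
  zero_mem' := by
    refine (Set.finite_singleton (0 : M)).subset ?_
    rintro _ ⟨g, -, rfl⟩
    exact map_zero (ρ g)
  smul_mem' := by
    intro c x hx
    refine (hx.image fun a => c • a).subset ?_
    rintro _ ⟨g, hg, rfl⟩
    exact ⟨_, ⟨g, hg, rfl⟩, (map_smul (ρ g) c x).symm⟩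

variable {ρ : Γ →* Module.End K M}

theorem mem_NF {F : Finset ι} {x : M} :
    x ∈ NF χ N ρ F ↔ ((fun g => ρ g x) '' Ker χ N F).Finite := Iff.rfl

theorem ρ_mul (g h : Γ) (x : M) : ρ (g * h) x = ρ g (ρ h x) := by
  rw [map_mul]
  rfl

theorem NF_mono {F F' : Finset ι} (h : F ⊆ F') : NF χ N ρ F ≤ NF χ N ρ F' :=
  fun _ hx => hx.subset (Set.image_mono (Ker.mono h))

/-- the subspace is stable -/
def Stable (ρ : Γ →* Module.End K M) (A : Submodule K M) : Prop := ∀ g, ∀ x ∈ A, ρ g x ∈ A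

theorem NF_stable (hN : ∀ i, (N i).Normal) (F : Finset ι) : Stable ρ (NF χ N ρ F) := by
  intro γ x hx
  refine (Set.Finite.image (fun y => ρ γ y) hx).subset ?_
  rintro _ ⟨g, hg, rfl⟩
  refine ⟨_, ⟨γ⁻¹ * g * γ, Ker.conj hN hg γ, rfl⟩, ?_⟩
  change ρ γ (ρ (γ⁻¹ * g * γ) x) = ρ g (ρ γ x)
  rw [← ρ_mul, ← ρ_mul]
  congr 2
  group

/-- orbits under subgroups of finite index -/
theorem finite_of_index {S : Set Γ} (hmul : ∀ g ∈ S, ∀ h ∈ S, g * h ∈ S)
    (hinv : ∀ g ∈ S, g⁻¹ ∈ S) {Δ : Subgroup Γ} (hΔ : Δ.FiniteIndex) {x : M}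
    (h : ((fun g => ρ g x) '' (S ∩ Δ)).Finite) : ((fun g => ρ g x) '' S).Finite := by
  classical
  have : Finite (Γ ⧸ Δ) := Subgroup.finite_quotient_of_finiteIndex
  let a : Γ ⧸ Δ → Γ := fun q => if hq : ∃ g ∈ S, (g : Γ ⧸ Δ) = q then hq.choose else 1
  have ha : ∀ g ∈ S, a g ∈ S ∧ ((a g : Γ) : Γ ⧸ Δ) = g := by
    intro g hg
    have hq : ∃ g' ∈ S, (g' : Γ ⧸ Δ) = g := ⟨g, hg, rfl⟩
    have h1 : a g = hq.choose := dif_pos hq
    rw [h1]
    exact hq.choose_spec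
  refine (Set.finite_iUnion fun q : Γ ⧸ Δ => Set.Finite.image (fun y => ρ (a q) y) h).subset ?_
  rintro _ ⟨g, hg, rfl⟩
  obtain ⟨h1, h2⟩ := ha g hg
  refine Set.mem_iUnion.2 ⟨(g : Γ ⧸ Δ), _, ⟨(a g)⁻¹ * g, ⟨hmul _ (hinv _ h1) _ hg,
    QuotientGroup.eq.1 h2⟩, rfl⟩, ?_⟩
  change ρ (a g) (ρ ((a g)⁻¹ * g) x) = ρ g x
  rw [← ρ_mul, mul_inv_cancel_left]

theorem NF_inter (hN : Independent χ N) [DecidableEq ι] (F F' : Finset ι) :
    NF χ N ρ F ⊓ NF χ N ρ F' ≤ NF χ N ρ (F ∩ F') := by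
  rintro x ⟨hx, hx'⟩
  obtain ⟨Δ, hΔ, h1⟩ := hN.split F F'
  refine finite_of_index (fun g hg h hh => Ker.mul hg hh) (fun g hg => Ker.inv hg) hΔ ?_
  have h2 : ∀ y ∈ (fun g => ρ g x) '' Ker χ N F, ((fun g => ρ g y) '' Ker χ N F').Finite := by
    rintro _ ⟨g, -, rfl⟩
    exact NF_stable hN.1 F' g x hx'
  refine (Set.Finite.biUnion hx h2).subset ?_
  rintro _ ⟨g, ⟨hg, hgΔ⟩, rfl⟩
  obtain ⟨a, ha, b, hb, rfl⟩ := h1 g hgΔ hg
  refine Set.mem_iUnion₂.2 ⟨ρ b x, ⟨b, hb, rfl⟩, a, ha, ?_⟩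
  change ρ a (ρ b x) = ρ (a * b) x
  rw [ρ_mul]

variable (χ N ρ) in
/-- The vectors which belong to `NF` for some finite set of indices in `A`. -/
def NA (A : Set ι) : Submodule K M := ⨆ F : {F : Finset ι // ↑F ⊆ A}, NF χ N ρ F

theorem mem_NA [DecidableEq ι] {A : Set ι} {x : M} :
    x ∈ NA χ N ρ A ↔ ∃ F : Finset ι, ↑F ⊆ A ∧ x ∈ NF χ N ρ F := by
  unfold NA
  have : Nonempty {F : Finset ι // ↑F ⊆ A} := ⟨⟨∅, by simp⟩⟩
  rw [Submodule.mem_iSup_of_directed]
  · constructor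
    · rintro ⟨F, hF⟩
      exact ⟨F, F.2, hF⟩
    · rintro ⟨F, hF, hx⟩
      exact ⟨⟨F, hF⟩, hx⟩
  · rintro ⟨F, hF⟩ ⟨F', hF'⟩
    refine ⟨⟨F ∪ F', ?_⟩, NF_mono Finset.subset_union_left, NF_mono Finset.subset_union_right⟩
    rw [Finset.coe_union]
    exact Set.union_subset hF hF'

theorem le_NA {A : Set ι} {F : Finset ι} (hF : ↑F ⊆ A) : NF χ N ρ F ≤ NA χ N ρ A := by
  classical
  exact fun x hx => mem_NA.2 ⟨F, hF, hx⟩

theorem NA_mono {A B : Set ι} (h : A ⊆ B) : NA χ N ρ A ≤ NA χ N ρ B := by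
  classical
  intro x hx
  obtain ⟨F, hF, hx⟩ := mem_NA.1 hx
  exact mem_NA.2 ⟨F, hF.trans h, hx⟩

theorem NA_stable (hN : ∀ i, (N i).Normal) [DecidableEq ι] (A : Set ι) :
    Stable ρ (NA χ N ρ A) := by
  intro g x hx
  obtain ⟨F, hF, hx⟩ := mem_NA.1 hx
  exact mem_NA.2 ⟨F, hF, NF_stable hN F g x hx⟩

variable (χ N ρ) in
/-- A chain of `n + 1` stable subspaces from the first to the last. -/
def Chain (n : ℕ) (A B : Submodule K M) : Prop :=
  ∃ U : ℕ → Submodule K M, U 0 = A ∧ U n = B ∧ (∀ m, m < n → U m < U (m + 1)) ∧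
    ∀ m, m ≤ n → Stable ρ (U m)

/-- **The exceptional indices.** -/
theorem exists_exc [FiniteDimensional K M] (hN : Independent χ N) (c : ℕ)
    (hc : ∀ F, NF χ N ρ F ≠ NF χ N ρ ∅ →
      finrank K (NF χ N ρ ∅) + c ≤ finrank K (NF χ N ρ F)) :
    ∀ n, ∀ A : Set ι, finrank K (NA χ N ρ A) ≤ n →
      ∃ E : Finset ι, ↑E ⊆ A ∧
        (∀ F : Finset ι, ↑F ⊆ A → Disjoint F E → NF χ N ρ F = NF χ N ρ ∅) ∧
        c * E.card + finrank K (NF χ N ρ ∅) ≤ finrank K (NA χ N ρ A) ∧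
        Chain ρ E.card (NF χ N ρ ∅) (NA χ N ρ A) := by
  classical
  intro n
  induction n with
  | zero =>
    intro A hA
    have h0 : NA χ N ρ A = ⊥ := Submodule.finrank_eq_zero.1 (Nat.le_zero.1 hA)
    have h1 : ∀ F : Finset ι, ↑F ⊆ A → NF χ N ρ F = ⊥ := fun F hF =>
      le_bot_iff.1 (h0 ▸ le_NA hF)
    refine ⟨∅, by simp, fun F hF _ => by rw [h1 F hF, h1 ∅ (by simp)], ?_, ?_⟩
    · rw [h0, h1 ∅ (by simp), Finset.card_empty, mul_zero, zero_add]
    · rw [h0, h1 ∅ (by simp), Finset.card_empty]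
      exact ⟨fun _ => ⊥, rfl, rfl, fun m hm => absurd hm (Nat.not_lt_zero m), fun m _ g x hx => by
        rw [Submodule.mem_bot] at hx ⊢
        rw [hx, map_zero]⟩
  | succ n ih =>
    intro A hA
    by_cases hbad : ∃ F : Finset ι, ↑F ⊆ A ∧ NF χ N ρ F ≠ NF χ N ρ ∅
    · -- a minimal bad set
      have hex : ∃ m, ∃ F : Finset ι, ↑F ⊆ A ∧ NF χ N ρ F ≠ NF χ N ρ ∅ ∧ F.card = m := by
        obtain ⟨F, hF, h⟩ := hbad
        exact ⟨_, F, hF, h, rfl⟩
      obtain ⟨F, hFA, hFb, hFc⟩ := Nat.find_spec hex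
      have hmin : ∀ F' : Finset ι, F' ⊂ F → NF χ N ρ F' = NF χ N ρ ∅ := by
        intro F' hF'
        by_contra h
        have h1 := Nat.find_min' hex ⟨F', (Finset.coe_subset.2 hF'.1).trans hFA, h, rfl⟩
        have h2 := Finset.card_lt_card hF'
        omega
      have hne : F.Nonempty := by
        rw [Finset.nonempty_iff_ne_empty]
        rintro rfl
        exact hFb rfl
      obtain ⟨i, hi⟩ := hne
      -- the remaining indices
      have hint : NF χ N ρ F ⊓ NA χ N ρ (A \ {i}) ≤ NF χ N ρ ∅ := by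
        rintro x ⟨hx, hx'⟩
        obtain ⟨F', hF', hx'⟩ := mem_NA.1 hx'
        have h1 := NF_inter hN F F' ⟨hx, hx'⟩
        rwa [hmin (F ∩ F') ⟨Finset.inter_subset_left, fun h => ?_⟩] at h1
        exact (hF' (Finset.mem_coe.2 (Finset.mem_inter.1 (h hi)).2)).2 rfl
      have hsub : NA χ N ρ (A \ {i}) ≤ NA χ N ρ A := NA_mono Set.sdiff_subset
      have h0F : NF χ N ρ ∅ ≤ NF χ N ρ F := NF_mono (Finset.empty_subset F)
      have h0A : NF χ N ρ ∅ ≤ NA χ N ρ (A \ {i}) := le_NA (by simp)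
      have hdim : finrank K (NF χ N ρ F) + finrank K (NA χ N ρ (A \ {i})) ≤
          finrank K (NA χ N ρ A) + finrank K (NF χ N ρ ∅) := by
        rw [← Submodule.finrank_sup_add_finrank_inf_eq]
        exact Nat.add_le_add (Submodule.finrank_mono (sup_le (le_NA hFA) hsub))
          (Submodule.finrank_mono hint)
      have hlt : NA χ N ρ (A \ {i}) < NA χ N ρ A := by
        refine lt_of_le_of_ne hsub fun h => hFb (le_antisymm ?_ h0F)
        intro x hx
        refine hint ⟨hx, ?_⟩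
        rw [h]
        exact le_NA hFA hx
      have hlt' := Submodule.finrank_lt_finrank_of_lt hlt
      obtain ⟨E, hE, h1, h2, U, hU0, hU1, hU2, hU3⟩ := ih (A \ {i}) (by omega)
      have hiE : i ∉ E := fun h => (hE (Finset.mem_coe.2 h)).2 rfl
      refine ⟨insert i E, ?_, ?_, ?_, ?_⟩
      · rw [Finset.coe_insert]
        exact Set.insert_subset (hFA hi) (hE.trans Set.sdiff_subset)
      · intro F' hF' hd
        rw [Finset.disjoint_insert_right] at hd
        refine h1 F' (fun j hj => ⟨hF' hj, fun h => hd.1 ?_⟩) hd.2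
        rw [Set.mem_singleton_iff] at h
        exact h ▸ hj
      · rw [Finset.card_insert_of_notMem hiE, mul_add, mul_one]
        have h3 := hc F hFb
        omega
      · rw [Finset.card_insert_of_notMem hiE]
        refine ⟨fun m => if m ≤ E.card then U m else NA χ N ρ A, ?_, ?_, ?_, ?_⟩
        · beta_reduce
          rw [if_pos (Nat.zero_le _), hU0]
        · beta_reduce
          rw [if_neg (by omega)]
        · intro m hm
          beta_reduce
          rcases Nat.lt_or_ge m E.card with h | h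
          · rw [if_pos h.le, if_pos (by omega)]
            exact hU2 m h
          · obtain rfl : m = E.card := by omega
            rw [if_pos le_rfl, if_neg (by omega), hU1]
            exact hlt
        · intro m hm
          beta_reduce
          by_cases h : m ≤ E.card
          · rw [if_pos h]
            exact hU3 m h
          · rw [if_neg h]
            exact NA_stable hN.1 A
    · push Not at hbad
      have h1 : NA χ N ρ A = NF χ N ρ ∅ := by
        refine le_antisymm (fun x hx => ?_) (le_NA (by simp))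
        obtain ⟨F, hF, hx⟩ := mem_NA.1 hx
        rwa [← hbad F hF]
      refine ⟨∅, by simp, fun F hF _ => hbad F hF, ?_, ?_⟩
      · rw [h1, Finset.card_empty, mul_zero, zero_add]
      · rw [h1, Finset.card_empty]
        exact ⟨fun _ => NF χ N ρ ∅, rfl, rfl, fun m hm => absurd hm (Nat.not_lt_zero m),
          fun m _ => NF_stable hN.1 ∅⟩

end rep

end Pool.Agent.L5helper68.TF
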