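import Pool.Agent.TH125.Gal.Pub
import Pool.Agent.L5helper68.TF.Core

/-!
# Tate classes on products with varieties from an independent family: definitions
-/

set_option autoImplicit false

open CategoryTheory AlgebraicGeometry

universe u w

namespace Pool.Agent.L5helper68.TF

open Pool.Agent.H914 Pool.Agent.H914.VarClass Pool.Agent.H914.VarClass.Obj
  Pool.Agent.H914.WeilCohomology Pool.Agent.TH125.Gal Pool.Agent.W552 Pool.Agent.H281R3.HT

section Alg

variable {K : Type} [Field K] {A B C : Type} [Ring A] [Algebra K A] [Ring B] [Algebra K B]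
  [Ring C] [Algebra K C] {Γ : Type} [Group Γ]

/-- The elements `c` of `gr (2 * j)`, for some `j`, with `g c = χ(g)^j c` for all `g` in a subgroup
of finite index. -/
def tateSet (χ : Γ →* Kˣ) (gr : ℕ → Submodule K A) (ρ : Γ →* (A ≃ₐ[K] A)) : Set A :=
  {c | ∃ j, c ∈ gr (2 * j) ∧
    ∃ Δ : Subgroup Γ, Δ.FiniteIndex ∧ ∀ g ∈ Δ, ρ g c = (χ g : K) ^ j • c}

/-- Every element of `S` is a linear combination of the products `p a * q b` with `a ∈ SA` and
`b ∈ SB`. -/
def ProductsSpan (p : A →ₐ[K] C) (q : B →ₐ[K] C) (SA : Set A) (SB : Set B) (S : Set C) : Prop :=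
  ∀ z ∈ S, z ∈ Submodule.span K {x | ∃ a ∈ SA, ∃ b ∈ SB, x = p a * q b}

/-- The subspace is stable. -/
def StableAct (ρ : Γ →* (A ≃ₐ[K] A)) (U : Submodule K A) : Prop := ∀ g, ∀ x ∈ U, ρ g x ∈ U

/-- Every stable subspace has a stable complement. -/
def SemisimpleAct (ρ : Γ →* (A ≃ₐ[K] A)) : Prop :=
  ∀ U, StableAct ρ U → ∃ U', StableAct ρ U' ∧ IsCompl U U'

/-- There are `n + 1` stable subspaces which contain `S`, each strictly contained in the next. -/
def HasChain (ρ : Γ →* (A ≃ₐ[K] A)) (S : Set A) (n : ℕ) : Prop :=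
  ∃ U : ℕ → Submodule K A, (∀ x ∈ S, x ∈ U 0) ∧ (∀ m, m < n → U m < U (m + 1)) ∧
    ∀ m, m ≤ n → StableAct ρ (U m)

/-- The codimension of the subspace spanned by `S`. -/
noncomputable def codim (K : Type) {A : Type} [Field K] [Ring A] [Algebra K A] (S : Set A) : ℕ :=
  Module.finrank K (A ⧸ Submodule.span K S)

/-- The formal properties of the action `ρ` of the Galois group on the cohomology algebra of a
variety of dimension `n`: the orientation `tr` is multiplied by `χ(g) ^ n`, and an element which has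
only finitely many images under the elements `g` with `χ(g) = 1` is a linear combination of Tate
classes. -/
structure GaloisLike (χ : Γ →* Kˣ) (gr : ℕ → Submodule K A) (n : ℕ) (tr : A →ₗ[K] K)
    (ρ : Γ →* (A ≃ₐ[K] A)) : Prop where
  trace : ∀ g a, tr (ρ g a) = (χ g : K) ^ n * tr a
  pure : ∀ c, {x | ∃ g, χ g = 1 ∧ x = ρ g c}.Finite → c ∈ Submodule.span K (tateSet χ gr ρ)

/-- The elements `g` with `χ(g) = 1` which belong to `N i` for all `i ∈ F` act on `A` through a
finite group. -/
def ActsThrough {ι : Type w} (χ : Γ →* Kˣ) (N : ι → Subgroup Γ) (F : Finset ι)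
    (ρ : Γ →* (A ≃ₐ[K] A)) : Prop :=
  {x | ∃ g, χ g = 1 ∧ (∀ i ∈ F, g ∈ N i) ∧ x = ρ g}.Finite

/-- The set contains an element whose trace is not zero. -/
def HasPoint (S : Set A) (tr : A →ₗ[K] K) : Prop := ∃ a ∈ S, tr a ≠ 0

end Alg

variable {k : Type u} [Field k] {𝒱 : VarClass k} {ops : CycleOps 𝒱}
  {W : WeilCohomology.{u, 0} ops} {Γ : Type} [Group Γ]

/-- The Tate classes on `X`, of all codimensions, over all finite extensions of the base field. -/
def tateClasses (χ : Γ →* W.Kˣ) (X : GVar W Γ) : Set (W.H X.X) := tateSet χ (W.gr X.X) X.act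

/-- `Γ` acts on the cohomology of `X` like a Galois group. -/
def IsGalois (χ : Γ →* W.Kˣ) (X : GVar W Γ) : Prop :=
  GaloisLike χ (W.gr X.X) X.X.dim (W.tr X.X) X.act

/-- The variety `P` belongs to the finite set `F` of indices. -/
def BelongsTo {ι : Type w} (χ : Γ →* W.Kˣ) (N : ι → Subgroup Γ) (F : Finset ι) (P : GVar W Γ) :
    Prop :=
  ActsThrough χ N F P.act

/-- `Y` is the product of `Z` and `P`, and the action on the cohomology of `Y` is compatible with
the projections. -/
inductive IsProduct (Z P : GVar W Γ) : GVar W Γ → Prop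
  | mk (υ : Γ →* (W.H (Z.X.prod P.X) ≃ₐ[W.K] W.H (Z.X.prod P.X))) :
      Intertwines (W.map (fst Z.X P.X)) Z.act υ → Intertwines (W.map (snd Z.X P.X)) P.act υ →
      IsProduct Z P ⟨Z.X.prod P.X, υ⟩

/-- Every Tate class on a product of `Z` and `P` is a linear combination of the products of Tate
classes on `Z` and `P`. -/
def TateKunneth (χ : Γ →* W.Kˣ) (Z P : GVar W Γ) : Prop :=
  ∀ υ : Γ →* (W.H (Z.X.prod P.X) ≃ₐ[W.K] W.H (Z.X.prod P.X)),
    Intertwines (W.map (fst Z.X P.X)) Z.act υ → Intertwines (W.map (snd Z.X P.X)) P.act υ →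
    ProductsSpan (W.map (fst Z.X P.X)) (W.map (snd Z.X P.X)) (tateClasses χ Z) (tateClasses χ P)
      (tateClasses χ ⟨Z.X.prod P.X, υ⟩)

end Pool.Agent.L5helper68.TF
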