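import Pool.Agent.L5helper68.TF.Core

/-!
# Semisimple representations with a nondegenerate form
-/

set_option autoImplicit false

namespace Pool.Agent.L5helper68.TF

open Module

universe u v w x

variable {Γ : Type u} [Group Γ] {C : Type v} [Group C] {ι : Type w} {χ : Γ →* C}
  {N : ι → Subgroup Γ} {K : Type x} [Field K] {M : Type*} [AddCommGroup M] [Module K M]
  {ρ : Γ →* Module.End K M}

/-- the orthogonal complement -/
def orth (B : M →ₗ[K] M →ₗ[K] K) (A : Submodule K M) : Submodule K M :=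
  A.dualAnnihilator.comap B.flip

theorem mem_orth {B : M →ₗ[K] M →ₗ[K] K} {A : Submodule K M} {y : M} :
    y ∈ orth B A ↔ ∀ x ∈ A, B x y = 0 := by
  unfold orth
  rw [Submodule.mem_comap, Submodule.mem_dualAnnihilator]
  rfl

theorem rho_inv (g : Γ) (x : M) : ρ g (ρ g⁻¹ x) = x := by
  rw [← ρ_mul, mul_inv_cancel, map_one]
  rfl

theorem rho_inv' (g : Γ) (x : M) : ρ g⁻¹ (ρ g x) = x := by
  rw [← ρ_mul, inv_mul_cancel, map_one]
  rfl

variable [FiniteDimensional K M]

theorem finrank_orth {B : M →ₗ[K] M →ₗ[K] K} (hB : ∀ x, (∀ y, B x y = 0) → x = 0)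
    (A : Submodule K M) : finrank K A + finrank K (orth B A) = finrank K M := by
  have h1 : Function.Injective B := by
    rw [injective_iff_map_eq_zero]
    intro x hx
    refine hB x fun y => ?_
    rw [hx]
    rfl
  have h2 : Function.Surjective B :=
    (LinearMap.injective_iff_surjective_of_finrank_eq_finrank
      (Subspace.dual_finrank_eq (K := K) (V := M)).symm).1 h1
  have h3 : Function.Injective B.flip := by
    rw [injective_iff_map_eq_zero]
    intro y hy
    refine (Module.forall_dual_apply_eq_zero_iff K y).1 fun φ => ?_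
    obtain ⟨x, rfl⟩ := h2 φ
    exact LinearMap.congr_fun hy x
  let e : M ≃ₗ[K] Dual K M := LinearEquiv.ofBijective B.flip ⟨h3,
    (LinearMap.injective_iff_surjective_of_finrank_eq_finrank
      (Subspace.dual_finrank_eq (K := K) (V := M)).symm).1 h3⟩
  have h4 : orth B A = A.dualAnnihilator.map (e.symm : Dual K M →ₗ[K] M) := by
    rw [← Submodule.comap_equiv_eq_map_symm]
    rfl
  rw [h4, LinearEquiv.finrank_map_eq]
  exact Subspace.finrank_add_finrank_dualAnnihilator_eq A

/-- the restriction of the form to `NF` is nondegenerate -/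
theorem NF_compl (hN : ∀ i, (N i).Normal) {B : M →ₗ[K] M →ₗ[K] K}
    (hB : ∀ x, (∀ y, B x y = 0) → x = 0) {μ : Γ → K}
    (hμ : ∀ g, χ g = 1 → μ g = 1) (hinv : ∀ g x y, B (ρ g x) (ρ g y) = μ g * B x y)
    (hss : ∀ A : Submodule K M, Stable ρ A → ∃ A' : Submodule K M, Stable ρ A' ∧ IsCompl A A')
    (F : Finset ι) : IsCompl (orth B (NF χ N ρ F)) (NF χ N ρ F) := by
  classical
  have hst : Stable ρ (orth B (NF χ N ρ F)) := by
    intro g y hy
    rw [mem_orth] at hy ⊢
    intro x hx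
    have h1 := hinv g (ρ g⁻¹ x) y
    rw [rho_inv, hy _ (NF_stable hN F g⁻¹ x hx), mul_zero] at h1
    exact h1
  obtain ⟨A, hA, hc⟩ := hss _ hst
  have hle : A ≤ NF χ N ρ F := by
    intro c hcA
    rw [mem_NF]
    -- the values of the form on a basis
    let b := Module.finBasis K (NF χ N ρ F)
    let S : ∀ i : Fin (finrank K (NF χ N ρ F)), Set K := fun i =>
      (fun y => B y c) '' ((fun g => ρ g ((b i : NF χ N ρ F) : M)) '' Ker χ N F)
    have hS1 : ∀ i, (S i).Finite := fun i => Set.Finite.image (fun y => B y c) (b i).2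
    have hS : (Set.pi Set.univ S).Finite := Set.Finite.pi hS1
    let φ : M → Fin (finrank K (NF χ N ρ F)) → K := fun y i => B (b i : NF χ N ρ F) y
    have hφ : Set.InjOn φ (A : Set M) := by
      intro y hy y' hy' h
      have h1 : y - y' ∈ orth B (NF χ N ρ F) := by
        rw [mem_orth]
        intro x hx
        have h2 : B.flip (y - y') ∘ₗ (NF χ N ρ F).subtype = 0 := by
          refine b.ext fun i => ?_
          have h3 := congrFun h i
          change B (b i : NF χ N ρ F) (y - y') = 0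
          rw [map_sub, sub_eq_zero]
          exact h3
        exact LinearMap.congr_fun h2 ⟨x, hx⟩
      have h2 : y - y' ∈ orth B (NF χ N ρ F) ⊓ A := ⟨h1, A.sub_mem hy hy'⟩
      rw [hc.inf_eq_bot, Submodule.mem_bot, sub_eq_zero] at h2
      exact h2
    refine Set.Finite.of_finite_image (f := φ) (hS.subset ?_) (hφ.mono ?_)
    · rintro _ ⟨_, ⟨g, hg, rfl⟩, rfl⟩
      intro i _
      refine ⟨ρ g⁻¹ (b i : NF χ N ρ F), ⟨g⁻¹, Ker.inv hg, rfl⟩, ?_⟩
      have h1 := hinv g (ρ g⁻¹ (b i : NF χ N ρ F)) c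
      rw [rho_inv, hμ g hg.1, one_mul] at h1
      exact h1.symm
    · rintro _ ⟨g, hg, rfl⟩
      exact hA g c hcA
  have hdim : finrank K A = finrank K (NF χ N ρ F) := by
    have h1 := Submodule.finrank_add_eq_of_isCompl hc
    have h2 := finrank_orth hB (NF χ N ρ F)
    omega
  have h1 := Submodule.eq_of_le_of_finrank_eq hle hdim
  rw [h1] at hc
  exact hc

theorem two_le (hN : ∀ i, (N i).Normal) {B : M →ₗ[K] M →ₗ[K] K}
    (hB : ∀ x, (∀ y, B x y = 0) → x = 0) {μ : Γ → K}
    (hμ : ∀ g, χ g = 1 → μ g = 1) (hinv : ∀ g x y, B (ρ g x) (ρ g y) = μ g * B x y)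
    (hss : ∀ A : Submodule K M, Stable ρ A → ∃ A' : Submodule K M, Stable ρ A' ∧ IsCompl A A')
    (F : Finset ι) (hF : NF χ N ρ F ≠ NF χ N ρ ∅) :
    finrank K (NF χ N ρ ∅) + 2 ≤ finrank K (NF χ N ρ F) := by
  classical
  have c0 := NF_compl hN hB hμ hinv hss (∅ : Finset ι)
  have cF := NF_compl hN hB hμ hinv hss F
  have hle : NF χ N ρ ∅ ≤ NF χ N ρ F := NF_mono (Finset.empty_subset F)
  set R : Submodule K M := orth B (NF χ N ρ ∅) ⊓ NF χ N ρ F with hR
  have hsup : R ⊔ NF χ N ρ ∅ = NF χ N ρ F := by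
    rw [hR, inf_comm, inf_sup_assoc_of_le _ hle, c0.sup_eq_top, inf_top_eq]
  have hinf : R ⊓ NF χ N ρ ∅ = ⊥ := by
    rw [eq_bot_iff]
    rintro x ⟨⟨h1, -⟩, h2⟩
    rw [← c0.inf_eq_bot]
    exact ⟨h1, h2⟩
  have hdim : finrank K (NF χ N ρ F) = finrank K R + finrank K (NF χ N ρ ∅) := by
    have h1 := Submodule.finrank_sup_add_finrank_inf_eq R (NF χ N ρ ∅)
    rw [hsup, hinf, finrank_bot, add_zero] at h1
    exact h1
  have hst : Stable ρ R := by
    rintro g y ⟨hy, hy'⟩
    refine ⟨mem_orth.2 fun x hx => ?_, NF_stable hN F g y hy'⟩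
    have h1 := hinv g (ρ g⁻¹ x) y
    rw [rho_inv, mem_orth.1 hy _ (NF_stable hN ∅ g⁻¹ x hx), mul_zero] at h1
    exact h1
  by_contra hlt
  have h2 : finrank K R ≤ 1 := by omega
  rcases Nat.le_one_iff_eq_zero_or_eq_one.1 h2 with h0 | h1
  · have h3 : R = ⊥ := Submodule.finrank_eq_zero.1 h0
    rw [h3, bot_sup_eq] at hsup
    exact hF hsup.symm
  · obtain ⟨x, hx0, hx⟩ := finrank_eq_one_iff'.1 h1
    have hxR : ∀ y ∈ R, ∃ c : K, y = c • (x : M) := by
      intro y hy
      obtain ⟨c, hc⟩ := hx ⟨y, hy⟩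
      exact ⟨c, (congrArg Subtype.val hc).symm⟩
    have hx0' : (x : M) ≠ 0 := fun h => hx0 (Subtype.ext h)
    have hBx : B (x : M) (x : M) ≠ 0 := by
      intro hB0
      apply hx0'
      have h3 : (x : M) ∈ orth B (NF χ N ρ F) := by
        rw [mem_orth]
        intro y hy
        rw [← hsup] at hy
        obtain ⟨a, ha, b, hb, rfl⟩ := Submodule.mem_sup.1 hy
        obtain ⟨c, rfl⟩ := hxR a ha
        have h4 := mem_orth.1 x.2.1 b hb
        rw [map_add, LinearMap.add_apply, map_smul, LinearMap.smul_apply, hB0, smul_zero, zero_add,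
          h4]
      have h4 : (x : M) ∈ orth B (NF χ N ρ F) ⊓ NF χ N ρ F := ⟨h3, x.2.2⟩
      rwa [cF.inf_eq_bot, Submodule.mem_bot] at h4
    apply hx0'
    have h3 : (x : M) ∈ NF χ N ρ ∅ := by
      rw [mem_NF]
      refine (Set.toFinite ({(x : M), -(x : M)} : Set M)).subset ?_
      rintro _ ⟨g, hg, rfl⟩
      obtain ⟨c, hc⟩ := hxR _ (hst g x x.2)
      have h4 := hinv g x x
      rw [hc, hμ g hg.1, one_mul, map_smul, map_smul, LinearMap.smul_apply, smul_eq_mul,
        smul_eq_mul, ← mul_assoc] at h4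
      have h5 : c * c = 1 := mul_right_cancel₀ hBx (by rw [h4, one_mul])
      have h6 : ρ g (x : M) = (x : M) ∨ ρ g (x : M) = -(x : M) := by
        rcases mul_self_eq_one_iff.1 h5 with h | h
        · left
          rw [hc, h, one_smul]
        · right
          rw [hc, h, neg_one_smul]
      exact h6
    have h4 : (x : M) ∈ orth B (NF χ N ρ ∅) ⊓ NF χ N ρ ∅ := ⟨x.2.1, h3⟩
    rwa [c0.inf_eq_bot, Submodule.mem_bot] at h4

end Pool.Agent.L5helper68.TF
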