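import Pool.Agent.L5helper68.TF.Defs
import Pool.Agent.L5helper68.TF.Form
import Pool.Agent.N179.GR.Step

/-!
# Slices of Tate classes
-/

set_option autoImplicit false
set_option linter.unusedSectionVars false

open CategoryTheory AlgebraicGeometry

universe u w

namespace Pool.Agent.L5helper68.TF

open Module Pool.Agent.H914 Pool.Agent.H914.VarClass Pool.Agent.H914.VarClass.Obj
  Pool.Agent.H914.WeilCohomology Pool.Agent.H281R3.HT Pool.Agent.W552 Pool.Agent.TH125.Gal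
open Pool.Agent.N179.GR (ctr2 ctr2_apply exists_exp ctr_sum TwSet TT tate_step tate_snd algR)

noncomputable section

variable {k : Type u} [Field k] {𝒱 : VarClass k} {ops : CycleOps 𝒱}
  {W : WeilCohomology.{u, 0} ops} {Γ : Type} [Group Γ]

variable {P Y : 𝒱.Obj} {ρ : Γ →* (W.H P ≃ₐ[W.K] W.H P)} {τ : Γ →* (W.H Y ≃ₐ[W.K] W.H Y)}
  {υ : Γ →* (W.H (P.prod Y) ≃ₐ[W.K] W.H (P.prod Y))}

/-- the action on a slice -/
theorem act_ctr2 (h1 : Intertwines (W.map (fst P Y)) ρ υ)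
    (h2 : Intertwines (W.map (snd P Y)) τ υ) (g : Γ) (ψ : W.H Y →ₗ[W.K] W.K)
    (z : W.H (P.prod Y)) :
    ρ g (ctr2 ψ z) = ctr2 (ψ ∘ₗ (τ g⁻¹ : W.H Y ≃ₐ[W.K] W.H Y).toLinearMap) (υ g z) := by
  refine kun_ext (L := fun z => ρ g (ctr2 ψ z))
    (L' := fun z => ctr2 (ψ ∘ₗ (τ g⁻¹ : W.H Y ≃ₐ[W.K] W.H Y).toLinearMap) (υ g z)) ?_ ?_ ?_ z
  · intro a b
    rw [map_add, map_add]
  · intro a b
    rw [map_add, map_add]
  · intro a b
    rw [map_mul (υ g), h1, h2, ctr2_apply, ctr2_apply, map_smul, LinearMap.comp_apply]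
    have h3 : (τ g⁻¹ : W.H Y ≃ₐ[W.K] W.H Y).toLinearMap (τ g b) = b := by
      change τ g⁻¹ (τ g b) = b
      rw [← AlgEquiv.mul_apply, ← map_mul, inv_mul_cancel, map_one]
      rfl
    rw [h3]

/-- the slices of the Tate classes have finite orbits -/
theorem slice_NF {ι : Type w} {χ : Γ →* W.Kˣ} {N : ι → Subgroup Γ} {F : Finset ι}
    (h1 : Intertwines (W.map (fst P Y)) ρ υ) (h2 : Intertwines (W.map (snd P Y)) τ υ)
    (hτ : ActsThrough χ N F τ) {j : ℕ} {z : W.H (P.prod Y)} {Δ : Subgroup Γ}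
    (hΔ : Δ.FiniteIndex) (hz : ∀ g ∈ Δ, υ g z = (χ g : W.K) ^ j • z)
    (ψ : W.H Y →ₗ[W.K] W.K) : ctr2 ψ z ∈ NF χ N (algR ρ) F := by
  rw [mem_NF]
  have h3 : ((fun g => algR υ g z) '' Ker χ N F).Finite := by
    refine finite_of_index (fun g hg h hh => Ker.mul hg hh) (fun g hg => Ker.inv hg) hΔ ?_
    refine (Set.finite_singleton z).subset ?_
    rintro _ ⟨g, ⟨hg, hgΔ⟩, rfl⟩
    have h4 : υ g z = z := by
      rw [hz g hgΔ, hg.1, Units.val_one, one_pow, one_smul]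
    exact h4
  refine (Set.Finite.image2 (fun (x : W.H (P.prod Y)) (e : W.H Y ≃ₐ[W.K] W.H Y) =>
    ctr2 (ψ ∘ₗ e.toLinearMap) x) h3 hτ).subset ?_
  rintro _ ⟨g, hg, rfl⟩
  refine ⟨_, ⟨g, hg, rfl⟩, τ g⁻¹, ⟨g⁻¹, (Ker.inv hg).1, (Ker.inv hg).2, rfl⟩, ?_⟩
  exact (act_ctr2 h1 h2 g ψ z).symm

/-- **The Künneth formula for twisted classes.** -/
theorem tw_step {χ : Γ →* W.Kˣ} (h1 : Intertwines (W.map (fst P Y)) ρ υ)
    (h2 : Intertwines (W.map (snd P Y)) τ υ) {j : ℕ}
    {z : W.H (P.prod Y)} (hzj : z ∈ W.gr (P.prod Y) (2 * j)) {Δ : Subgroup Γ}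
    (hΔ : Δ.FiniteIndex) (hz : ∀ g ∈ Δ, υ g z = (χ g : W.K) ^ j • z)
    (hs : ∀ ψ, ctr2 ψ z ∈ Submodule.span W.K (TwSet χ P ρ)) :
    z ∈ Submodule.span W.K {x | ∃ a ∈ TwSet χ P ρ, ∃ b ∈ TwSet χ Y τ,
      x = W.map (fst P Y) a * W.map (snd P Y) b} := by
  classical
  obtain ⟨N, m, φ, hm, hφ, hexp⟩ := exists_exp Y (TwSet χ P ρ)
  have h3 := hexp z hs
  choose i hmi Δ' hΔ' hc' using fun l => hm l
  have hfin : (⨅ l, Δ' l).FiniteIndex := Subgroup.finiteIndex_iInf fun l => hΔ' l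
  set x : Fin N → W.H Y := fun l => ctr (φ l) z with hx
  -- degrees
  have hdeg : ∀ l, x l = if 2 * i l ≤ 2 * j then
      proj (W.isInternal Y) (2 * j - 2 * i l) (x l) else 0 := by
    intro l
    have h4 : z = ∑ l', W.map (fst _ Y) (m l') * W.map (snd _ Y)
        (if 2 * i l' ≤ 2 * j then proj (W.isInternal Y) (2 * j - 2 * i l') (x l') else 0) := by
      conv_lhs => rw [← proj_same (W.isInternal _) hzj, h3]
      rw [map_sum]
      refine Finset.sum_congr rfl fun l' _ => ?_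
      rw [proj_ext (hmi l')]
      by_cases h : 2 * i l' ≤ 2 * j
      · rw [if_pos h, if_pos h]
      · rw [if_neg h, if_neg h, map_zero, mul_zero]
    conv_lhs => rw [hx]
    beta_reduce
    rw [h4]
    exact ctr_sum hφ _ l
  -- semi-invariance
  have hact : ∀ g ∈ Δ ⊓ ⨅ l, Δ' l, ∀ l,
      (χ g : W.K) ^ i l • τ g (x l) = (χ g : W.K) ^ j • x l := by
    intro g hg l
    have h4 : υ g z = ∑ l', W.map (fst _ Y) (m l') * W.map (snd _ Y)
        ((χ g : W.K) ^ i l' • τ g (x l')) := by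
      conv_lhs => rw [h3]
      rw [map_sum]
      refine Finset.sum_congr rfl fun l' _ => ?_
      rw [map_mul, h1, h2, hc' l' g (Subgroup.mem_iInf.1 hg.2 l'), map_smul, map_smul,
        smul_mul_assoc, mul_smul_comm]
    have h5 := ctr_sum hφ (fun l' => (χ g : W.K) ^ i l' • τ g (x l')) l
    rw [← h4, hz g hg.1, map_smul] at h5
    exact h5.symm
  have htw : ∀ l, x l ∈ TwSet χ Y τ := by
    intro l
    by_cases h : 2 * i l ≤ 2 * j
    · have h4 := hdeg l
      rw [if_pos h] at h4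
      have h5 : x l ∈ W.gr Y (2 * (j - i l)) := by
        rw [h4, show 2 * (j - i l) = 2 * j - 2 * i l by omega]
        exact proj_mem _ _ _
      refine ⟨j - i l, h5, Δ ⊓ ⨅ l, Δ' l, inferInstance, fun g hg => ?_⟩
      have h7 := hact g hg l
      have h8 : (χ g : W.K) ^ j = (χ g : W.K) ^ i l * (χ g : W.K) ^ (j - i l) := by
        rw [← pow_add]
        congr 1
        omega
      rw [h8, mul_smul] at h7
      exact smul_right_injective _ (pow_ne_zero _ (Units.ne_zero (χ g))) h7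
    · have h4 := hdeg l
      rw [if_neg h] at h4
      rw [h4]
      exact ⟨0, Submodule.zero_mem _, ⊤, inferInstance, fun g _ => by rw [map_zero, smul_zero]⟩
  rw [h3]
  exact Submodule.sum_mem _ fun l _ => Submodule.subset_span ⟨m l, hm l, x l, htw l, rfl⟩

/-- from the product to the first factor -/
theorem tate_fst {P Y : 𝒱.Obj} {ρ : Γ →* (W.H P ≃ₐ[W.K] W.H P)}
    {υ : Γ →* (W.H (P.prod Y) ≃ₐ[W.K] W.H (P.prod Y))} {χ : Γ →* W.Kˣ}
    (h1 : Intertwines (W.map (fst P Y)) ρ υ)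
    (hpt : ∃ a ∈ algClasses W Y Y.dim, W.tr Y a ≠ 0) (hT : TT χ (P.prod Y) υ) : TT χ P ρ := by
  intro j c hcj ⟨Δ, hΔ, hc⟩
  have h3 := hT j (W.map (fst P Y) c) (W.map_mem _ hcj) ⟨Δ, hΔ, fun g hg => by
    rw [h1, hc g hg, map_smul]⟩
  obtain ⟨a, ha, ha0⟩ := hpt
  have hag : a ∈ W.gr Y (2 * Y.dim) := by
    obtain ⟨w, hw, rfl⟩ := ha
    exact W.cl_mem hw
  have h4 : W.push (fst P Y) (W.map (fst P Y) c * W.map (snd P Y) a) ∈ algSpan W P :=
    algSpan_push _ (algSpan_mul (Submodule.span_mono (Set.subset_iUnion _ j) h3)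
      (algSpan_map _ (alg_mem ha)))
  have h5 : W.push (fst P Y) (W.map (fst P Y) c * W.map (snd P Y) a) = W.tr Y a • c := by
    apply W.tr_ext
    intro d
    rw [W.tr_push, mul_assoc, W.even_comm (W.map_mem (snd P Y) hag), ← mul_assoc, ← map_mul,
      W.tr_prod, smul_mul_assoc, map_smul, smul_eq_mul, mul_comm]
  rw [h5] at h4
  have h6 := Submodule.smul_mem _ (W.tr Y a)⁻¹ h4
  rw [smul_smul, inv_mul_cancel₀ ha0, one_smul] at h6
  exact algSpan_gr h6 hcj

/-- **The theorem.** -/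
theorem final {ι : Type w} (χ : Γ →* W.Kˣ) (N : ι → Subgroup Γ) (hN : Independent χ N)
    (Z : GVar W Γ) (hZ : IsGalois χ Z) :
    ∃ E : Set ι, E.Finite ∧ HasChain Z.act (tateClasses χ Z) E.ncard ∧
      (SemisimpleAct Z.act → 2 * E.ncard ≤ codim W.K (tateClasses χ Z)) ∧
      ∀ F : Finset ι, (∀ i ∈ F, i ∉ E) → ∀ P : GVar W Γ, BelongsTo χ N F P →
        TateKunneth χ Z P ∧ ∀ Y : GVar W Γ, IsProduct Z P Y →
          HasPoint (algClasses W Z.X Z.X.dim) (W.tr Z.X) →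
          HasPoint (algClasses W P.X P.X.dim) (W.tr P.X) →
          (TateConjecture χ Y ↔ TateConjecture χ Z ∧ TateConjecture χ P) := by
  classical
  let r : Γ →* Module.End W.K (W.H Z.X) := algR Z.act
  -- the invariants of the kernel of the cyclotomic character
  have h0 : NF χ N r ∅ = Submodule.span W.K (tateClasses χ Z) := by
    apply le_antisymm
    · intro c hc
      refine hZ.pure c ((mem_NF.1 hc).subset ?_)
      rintro _ ⟨g, hg, rfl⟩
      exact ⟨g, ⟨hg, fun i hi => absurd hi (Finset.notMem_empty i)⟩, rfl⟩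
    · rw [Submodule.span_le]
      rintro c ⟨j, -, Δ, hΔ, hc⟩
      refine mem_NF.2 (finite_of_index (fun g hg h hh => Ker.mul hg hh)
        (fun g hg => Ker.inv hg) hΔ ?_)
      refine (Set.finite_singleton c).subset ?_
      rintro _ ⟨g, ⟨hg, hgΔ⟩, rfl⟩
      have h4 : Z.act g c = c := by
        rw [hc g hgΔ, hg.1, Units.val_one, one_pow, one_smul]
      exact h4
  -- the exceptional set
  have key : ∃ E : Finset ι,
      (∀ F : Finset ι, Disjoint F E → NF χ N r F = NF χ N r ∅) ∧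
      Chain r E.card (NF χ N r ∅) (NA χ N r Set.univ) ∧
      (SemisimpleAct Z.act → 2 * E.card + finrank W.K (NF χ N r ∅) ≤ finrank W.K (W.H Z.X)) := by
    by_cases hss : SemisimpleAct Z.act
    · have h2 := two_le (ρ := r) (χ := χ) (N := N) hN.1
        (B := (LinearMap.mul W.K (W.H Z.X)).compr₂ (W.tr Z.X)) (fun x hx => W.nondeg x hx)
        (μ := fun g => (χ g : W.K) ^ Z.X.dim)
        (fun g hg => by rw [hg, Units.val_one, one_pow])
        (fun g x y => by
          have h3 := hZ.trace g (x * y)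
          rw [map_mul] at h3
          exact h3)
        (fun A hA => hss A hA)
      obtain ⟨E, -, h3, h4, h5⟩ := exists_exc (ρ := r) hN 2 h2 _ Set.univ le_rfl
      refine ⟨E, fun F hF => h3 F (Set.subset_univ _) hF, h5, fun _ => ?_⟩
      exact h4.trans (Submodule.finrank_le _)
    · obtain ⟨E, -, h3, -, h5⟩ := exists_exc (ρ := r) hN 0 (fun F _ => by
        rw [add_zero]
        exact Submodule.finrank_mono (NF_mono (Finset.empty_subset F))) _ Set.univ le_rfl
      exact ⟨E, fun F hF => h3 F (Set.subset_univ _) hF, h5, fun h => absurd h hss⟩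
  obtain ⟨E, hE, ⟨U, hU0, -, hU1, hU2⟩, hE2⟩ := key
  refine ⟨E, E.finite_toSet, ?_, ?_, ?_⟩
  · rw [Set.ncard_coe_finset]
    refine ⟨U, fun x hx => ?_, hU1, fun m hm g x hx => hU2 m hm g x hx⟩
    rw [hU0, h0]
    exact Submodule.subset_span hx
  · intro hss
    rw [Set.ncard_coe_finset]
    have h1 := hE2 hss
    rw [h0] at h1
    have h2 := Submodule.finrank_quotient_add_finrank (Submodule.span W.K (tateClasses χ Z))
    unfold codim
    omega
  · intro F hF P hP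
    have hF0 : NF χ N r F = Submodule.span W.K (tateClasses χ Z) := by
      rw [hE F (Finset.disjoint_left.2 fun i hi hiE => hF i hi (Finset.mem_coe.2 hiE)), h0]
    refine ⟨?_, ?_⟩
    · intro υ h1 h2 z hz
      obtain ⟨j, hzj, Δ, hΔ, hz⟩ := hz
      refine tw_step h1 h2 hzj hΔ hz fun ψ => ?_
      have h3 := slice_NF (ρ := Z.act) (N := N) h1 h2 hP hΔ hz ψ
      change ctr2 ψ z ∈ NF χ N r F at h3
      rw [hF0] at h3
      exact h3
    · rintro _ ⟨υ, h1, h2⟩ hpZ hpP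
      constructor
      · intro hT
        exact ⟨tate_fst h1 hpP hT, tate_snd h2 hpZ hT⟩
      · rintro ⟨hTZ, hTP⟩
        rintro j z hzj ⟨Δ, hΔ, hz⟩
        refine tate_step h1 h2 hTZ hTP hzj hΔ hz fun ψ => ?_
        have h3 := slice_NF (ρ := Z.act) (N := N) h1 h2 hP hΔ hz ψ
        change ctr2 ψ z ∈ NF χ N r F at h3
        rw [hF0] at h3
        exact h3

end

end Pool.Agent.L5helper68.TF
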